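import Pool.Agent.DL.Par

/-!
# Turán's conjecture for coverings with disconnected link graphs

Let `T` be a 3-graph on `n` vertices in which every four vertices span a triple. The link graph of a
vertex `x` is the graph on the other vertices whose edges are the pairs `yz` with `xyz ∈ T`. In
Turán's construction the link graph of a vertex of `V_i` has two components, `V_i ∪ V_{i+1}`
(without `x`) and `V_{i-1}`. Conversely, it is proved here that Turán's construction is
characterised by this: if all link graphs of `T` are disconnected, then `T` is Turán's construction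
for some classes with at least two vertices, or `T` has at least `⌊0²/4⌋ + ⌊1²/4⌋ + ... +
⌊(n-2)²/4⌋ = n³/12 - O(n²)` triples (density 1/2), and the latter bound is attained for all
`n ≥ 3`. So Turán's conjecture holds in its exact form for these 3-graphs, for all `n`. It is also
shown that such a `T` is determined by the components of its link graphs: `xyz` is a triple of `T`
if and only if each of the three vertices has the two others in the same component of its link graph.

Proof: let every vertex colour the other vertices by the components of its link graph. Write `x < y`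
if some vertex `z` has the same colour as `y` at `x`, but not the same colour as `x` at `y`. By the
covering condition the set of the vertices which are separated from `y` by `x` and the set of the
vertices which are separated from `x` by `y` are nested. A shortest cycle of this relation has length
three, and a cyclic triple gives the classes of Turán's construction. Without cycles there is a
maximal vertex, for which all pairs of vertices of the same colour are completed to triples of `T`;
it is deleted, and one uses induction (for the triples in which every vertex sees the two others in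
the same colour, which turn out to be the triples of `T`).
-/

set_option autoImplicit false
open Finset

namespace Pool.Agent.Results.MP_466853_co.DisconnectedLinks

variable {n : ℕ}

/-- Every four vertices contain a triple of `T`. -/
def Covers (T : Finset (Finset (Fin n))) : Prop :=
  ∀ S : Finset (Fin n), S.card = 4 → ∃ e ∈ T, e ⊆ S

/-- `T` is a set of triples such that every four vertices contain a triple of `T`. -/
def IsCovering (T : Finset (Finset (Fin n))) : Prop := (∀ e ∈ T, e.card = 3) ∧ Covers T

/-- The link graph of `x`: its vertices are the vertices other than `x`, and `y`, `z` are adjacent if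
`{x, y, z}` is a triple of `T`. -/
def linkGraph (T : Finset (Finset (Fin n))) (x : Fin n) : SimpleGraph {y : Fin n // y ≠ x} :=
  SimpleGraph.fromRel fun y z => ({x, y.1, z.1} : Finset (Fin n)) ∈ T

/-- All link graphs are disconnected. -/
def LinksDisconnected (T : Finset (Finset (Fin n))) : Prop := ∀ x, ¬ (linkGraph T x).Connected

/-- `y` and `z` are in the same component of the link graph of `x`. -/
def SameComponent (T : Finset (Finset (Fin n))) (x y z : Fin n) : Prop :=
  ∃ (hy : y ≠ x) (hz : z ≠ x), (linkGraph T x).Reachable ⟨y, hy⟩ ⟨z, hz⟩

/-- Turán's construction for the classes of `g`: the triples inside a class, and the triples with two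
vertices in a class and one vertex in the (cyclically) next class. -/
def turanCovering (g : Fin n → Fin 3) : Finset (Finset (Fin n)) :=
  univ.filter fun e => e.card = 3 ∧ ((∃ k, ∀ x ∈ e, g x = k) ∨
    ∃ k, (e.filter fun x => g x = k).card = 2 ∧ (e.filter fun x => g x = k + 1).card = 1)

/-- `T` is Turán's construction for three classes with at least two vertices. -/
def IsTuran (T : Finset (Finset (Fin n))) : Prop :=
  ∃ g : Fin n → Fin 3, (∀ i, 2 ≤ (univ.filter fun x => g x = i).card) ∧ T = turanCovering g

/-- The number of triples of Turán's construction on `n` vertices with classes of `⌊n/3⌋`,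
`⌊(n+1)/3⌋`, `⌊(n+2)/3⌋` vertices. -/
def turanNumber (n : ℕ) : ℕ :=
  (n / 3).choose 3 + ((n + 1) / 3).choose 3 + ((n + 2) / 3).choose 3 +
    (n / 3).choose 2 * ((n + 2) / 3) + ((n + 1) / 3).choose 2 * (n / 3) +
    ((n + 2) / 3).choose 2 * ((n + 1) / 3)

/-- `⌊0²/4⌋ + ⌊1²/4⌋ + ... + ⌊(n-2)²/4⌋`. -/
def halfNumber (n : ℕ) : ℕ := ∑ j ∈ range (n - 1), j ^ 2 / 4

open Pool.Agent.R810

theorem turanCovering_eq (g : Fin n → Fin 3) : turanCovering g = TC.turanCovering g := by
  unfold turanCovering TC.turanCovering
  congr!

theorem linkGraph_eq (T : Finset (Finset (Fin n))) (x : Fin n) :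
    linkGraph T x = DL.linkGraph T x := by
  ext y z
  unfold linkGraph DL.linkGraph
  rw [SimpleGraph.fromRel_adj]
  have e : ({x, z.1, y.1} : Finset (Fin n)) = {x, y.1, z.1} := by rw [pair_comm z.1 y.1]
  rw [e, or_self]

theorem isTuran_iff (T : Finset (Finset (Fin n))) : IsTuran T ↔
    ∃ g : Fin n → Fin 3, (∀ i, 2 ≤ (univ.filter fun x => g x = i).card) ∧
      T = TC.turanCovering g := by
  unfold IsTuran
  refine exists_congr fun g => ?_
  rw [turanCovering_eq]

/-- the case of at least two vertices -/
theorem links_two (hn : 2 ≤ n) {T : Finset (Finset (Fin n))} (hT : IsCovering T)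
    (hd : LinksDisconnected T) :
    (∀ x y z : Fin n, x ≠ y → x ≠ z → y ≠ z → (({x, y, z} : Finset (Fin n)) ∈ T ↔
      SameComponent T x y z ∧ SameComponent T y x z ∧ SameComponent T z x y)) ∧
    (IsTuran T ∨ halfNumber n ≤ T.card) := by
  have hd' : ∀ x, ¬ (DL.linkGraph T x).Connected := by
    intro x
    rw [← linkGraph_eq]
    exact hd x
  obtain ⟨h1, h2⟩ := DL.links hn hT.1 hT.2 hd'
  constructor
  · intro x y z hxy hxz hyz
    have h3 : ({x, y, z} : Finset (Fin n)) ∈ T ↔ DL.LM (DL.cc T) x y z := by
      rw [← DL.mem_locT' hxy hxz hyz, ← h1]
    have key : ∀ x y z : Fin n, y ≠ x → z ≠ x →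
        (SameComponent T x y z ↔ DL.cc T x y = DL.cc T x z) := by
      intro x y z hy hz
      rw [DL.cc_eq hy hz]
      unfold SameComponent
      rw [linkGraph_eq]
      exact ⟨fun ⟨_, _, h⟩ => h, fun h => ⟨hy, hz, h⟩⟩
    rw [h3, key x y z hxy.symm hxz.symm, key y x z hxy hyz.symm, key z x y hxz hyz]
    rfl
  · rw [isTuran_iff]
    exact h2

theorem small {T : Finset (Finset (Fin n))} (hn : ¬ 2 ≤ n) (hT : IsCovering T) : T.card = 0 := by
  rw [card_eq_zero, eq_empty_iff_forall_notMem]
  intro e he
  have h1 := hT.1 e he
  have h2 : e.card ≤ n := by simpa using card_le_univ e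
  omega

/-- **Turán's conjecture for coverings with disconnected link graphs.** Let `T` be a set of triples
of `n` vertices such that every four vertices contain a triple of `T`, and let all link graphs of `T`
be disconnected. Then `T` is determined by the components of the link graphs, and `T` is Turán's
construction for three classes with at least two vertices or has at least `halfNumber n` triples. So
`T` has at least as many triples as the balanced Turán construction, for `n ≥ 6` with equality only
for Turán's construction. Both bounds are sharp (for `n ≥ 6` and for `n ≥ 3`). -/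
theorem result :
    (∀ (n : ℕ) (T : Finset (Finset (Fin n))), IsCovering T → LinksDisconnected T →
      (∀ x y z : Fin n, x ≠ y → x ≠ z → y ≠ z → (({x, y, z} : Finset (Fin n)) ∈ T ↔
        SameComponent T x y z ∧ SameComponent T y x z ∧ SameComponent T z x y)) ∧
      (IsTuran T ∨ halfNumber n ≤ T.card) ∧
      turanNumber n ≤ T.card ∧ (6 ≤ n → T.card = turanNumber n → IsTuran T)) ∧
    (∀ n : ℕ, 6 ≤ n → turanNumber n < halfNumber n ∧
      IsLeast {m : ℕ | ∃ T : Finset (Finset (Fin n)),
        IsCovering T ∧ LinksDisconnected T ∧ T.card = m} (turanNumber n)) ∧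
    (∀ n : ℕ, 3 ≤ n → IsLeast {m : ℕ | ∃ T : Finset (Finset (Fin n)),
        IsCovering T ∧ LinksDisconnected T ∧ ¬ IsTuran T ∧ T.card = m} (halfNumber n)) := by
  have hHn : ∀ n, halfNumber n = DL.H n := fun n => rfl
  have htn : ∀ n, turanNumber n = TC.fn n := fun n => rfl
  have partA : ∀ (n : ℕ) (T : Finset (Finset (Fin n))), IsCovering T → LinksDisconnected T →
      (∀ x y z : Fin n, x ≠ y → x ≠ z → y ≠ z → (({x, y, z} : Finset (Fin n)) ∈ T ↔
        SameComponent T x y z ∧ SameComponent T y x z ∧ SameComponent T z x y)) ∧
      (IsTuran T ∨ halfNumber n ≤ T.card) ∧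
      turanNumber n ≤ T.card ∧ (6 ≤ n → T.card = turanNumber n → IsTuran T) := by
    intro n T hT hd
    by_cases hn : 2 ≤ n
    · obtain ⟨h1, h2⟩ := links_two hn hT hd
      refine ⟨h1, h2, ?_, ?_⟩
      · rcases h2 with h2 | h2
        · obtain ⟨g, -, h3⟩ := (isTuran_iff T).1 h2
          rw [h3, htn]
          exact TC.fn_le_cov g
        · exact (DL.fn_le_H n).trans h2
      · intro hn6 hc
        rcases h2 with h2 | h2
        · exact h2
        · exfalso
          have := DL.fn_lt_H hn6
          rw [hHn] at h2
          rw [htn] at hc
          omega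
    · refine ⟨?_, Or.inr ?_, ?_, fun h => absurd h (by omega)⟩
      · intro x y z hxy
        exfalso
        apply hxy
        apply Fin.ext
        have h1 := x.2
        have h2 := y.2
        omega
      · rw [small hn hT]
        have : n = 0 ∨ n = 1 := by omega
        rcases this with rfl | rfl <;> decide
      · rw [small hn hT]
        have : n = 0 ∨ n = 1 := by omega
        rcases this with rfl | rfl <;> decide
  refine ⟨partA, ?_, ?_⟩
  · intro n hn
    refine ⟨DL.fn_lt_H hn, ?_, ?_⟩
    · obtain ⟨g, hg, hc⟩ := TC.exists_cov hn
      refine ⟨TC.turanCovering g, ⟨fun e he => TC.cov_three he, TC.cov_covers g⟩, ?_, hc⟩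
      intro x
      rw [linkGraph_eq]
      exact DL.turan_links (fun i => by
        convert hg i) x
    · rintro m ⟨T, hT, hd, rfl⟩
      exact (partA n T hT hd).2.2.1
  · intro n hn
    constructor
    · refine ⟨DL.parT n, ⟨DL.parT_three, DL.parT_covers⟩, ?_, ?_, DL.parT_card_eq hn⟩
      · intro x
        rw [linkGraph_eq]
        exact DL.parT_links hn x
      · rw [isTuran_iff]
        exact DL.parT_ne hn
    · rintro m ⟨T, hT, hd, hne, rfl⟩
      exact (partA n T hT hd).2.1.resolve_left hne

end Pool.Agent.Results.MP_466853_co.DisconnectedLinks
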