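import Pool.Agent.DL.Main

/-!
# Turán's conjecture for locally monochromatic triples

Let every one of `n` vertices colour the other vertices, with any number of colours, and let `T` be
the set of the triples in which every vertex sees the two others in the same colour. If every four
vertices contain a triple of `T`, then `T` contains Turán's construction for some classes with at
least two vertices, or `T` has at least `⌊0²/4⌋ + ⌊1²/4⌋ + ... + ⌊(n-2)²/4⌋` triples (density
1/2). So the least number of triples is the number of triples in Turán's construction, for all `n`.
If the colour of `y` at `x` is always the colour of `x` at `y`, then `T` is the set of the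
monochromatic triangles of a colouring of the pairs.

Proof: write `x < y` if some vertex `z` has the same colour as `y` at `x`, but not the same colour as
`x` at `y`. By the covering condition the set of the vertices which are separated from `y` by `x` and
the set of the vertices which are separated from `x` by `y` are nested. A shortest cycle of this
relation has length three, and a cyclic triple gives the classes of Turán's construction. Without
cycles there is a maximal vertex `x`. Any two vertices of the same colour at `x` form a triple with
`x`. If there are only two colours at `x`, then `x` is deleted; with more colours at `x` there is a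
vertex `z` such that every two vertices form a triple with `x` or with `z`, and both are deleted.
-/

set_option autoImplicit false
open Finset

namespace Pool.Agent.Results.MP_466853_co.LocalColourings

variable {n : ℕ}

/-- Every four vertices contain a triple of `T`. -/
def Covers (T : Finset (Finset (Fin n))) : Prop :=
  ∀ S : Finset (Fin n), S.card = 4 → ∃ e ∈ T, e ⊆ S

/-- Turán's construction for the classes of `g`: the triples inside a class, and the triples with two
vertices in a class and one vertex in the (cyclically) next class. -/
def turanCovering (g : Fin n → Fin 3) : Finset (Finset (Fin n)) :=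
  univ.filter fun e => e.card = 3 ∧ ((∃ k, ∀ x ∈ e, g x = k) ∨
    ∃ k, (e.filter fun x => g x = k).card = 2 ∧ (e.filter fun x => g x = k + 1).card = 1)

/-- The number of triples of Turán's construction on `n` vertices with classes of `⌊n/3⌋`,
`⌊(n+1)/3⌋`, `⌊(n+2)/3⌋` vertices. -/
def turanNumber (n : ℕ) : ℕ :=
  (n / 3).choose 3 + ((n + 1) / 3).choose 3 + ((n + 2) / 3).choose 3 +
    (n / 3).choose 2 * ((n + 2) / 3) + ((n + 1) / 3).choose 2 * (n / 3) +
    ((n + 2) / 3).choose 2 * ((n + 1) / 3)

/-- `⌊0²/4⌋ + ⌊1²/4⌋ + ... + ⌊(n-2)²/4⌋`. -/
def halfNumber (n : ℕ) : ℕ := ∑ j ∈ range (n - 1), j ^ 2 / 4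

open Classical in
/-- The triples in which every vertex sees the two others in the same colour; `c x y` is the colour
of `y` at `x`. -/
noncomputable def localTriples {κ : Type} (c : Fin n → Fin n → κ) : Finset (Finset (Fin n)) :=
  univ.filter fun e => e.card = 3 ∧
    ∀ x ∈ e, ∀ y ∈ e, ∀ z ∈ e, y ≠ x → z ≠ x → c x y = c x z

open Pool.Agent.R810

theorem turanCovering_eq (g : Fin n → Fin 3) : turanCovering g = TC.turanCovering g := by
  unfold turanCovering TC.turanCovering
  congr!

theorem localTriples_eq {κ : Type} (c : Fin n → Fin n → κ) : localTriples c = DL.locT c := by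
  ext e
  rw [DL.mem_locT]
  simp only [localTriples, mem_filter, mem_univ, true_and]
  rfl

/-- **Turán's conjecture for locally monochromatic triples.** Let every one of `n` vertices colour
the other vertices such that every four vertices contain a triple in which every vertex sees the two
others in the same colour. Then the set of these triples contains Turán's construction for three
classes with at least two vertices, or it has at least `halfNumber n` elements. The least possible
number of these triples is Turán's number, for every `n`. -/
theorem result :
    (∀ (n : ℕ) (κ : Type) (c : Fin n → Fin n → κ), Covers (localTriples c) →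
      (∃ g : Fin n → Fin 3, (∀ i, 2 ≤ (univ.filter fun x => g x = i).card) ∧
        turanCovering g ⊆ localTriples c) ∨ halfNumber n ≤ (localTriples c).card) ∧
    (∀ n : ℕ, turanNumber n ≤ halfNumber n ∧ IsLeast {m : ℕ | ∃ c : Fin n → Fin n → ℕ,
      Covers (localTriples c) ∧ (localTriples c).card = m} (turanNumber n)) := by
  have partD : ∀ (n : ℕ) (κ : Type) (c : Fin n → Fin n → κ), Covers (localTriples c) →
      (∃ g : Fin n → Fin 3, (∀ i, 2 ≤ (univ.filter fun x => g x = i).card) ∧
        turanCovering g ⊆ localTriples c) ∨ halfNumber n ≤ (localTriples c).card := by
    intro n κ c hc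
    rw [localTriples_eq] at hc ⊢
    rcases DL.std_or (DL.cov_of DL.locT_three hc (Subset.refl _)) with ⟨g, hg, hs⟩ | ⟨h, -⟩
    · left
      refine ⟨g, hg, ?_⟩
      rw [turanCovering_eq]
      refine (TC.of_turan DL.locT_three ?_).1
      intro x y z hxy hxz hyz h1 h2
      exact (DL.mem_locT' hxy hxz hyz).2 (DL.std_lm hs hxy hxz hyz h1 h2)
    · right
      exact h
  refine ⟨partD, ?_⟩
  intro n
  refine ⟨DL.fn_le_H n, ?_⟩
  constructor
  · obtain ⟨c, hs, hc, hm⟩ := TC.colouring_sharp n
    have heq : localTriples (fun x y => ((c x y : Fin 3) : ℕ)) = TC.monoTriples c := by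
      ext e
      rw [localTriples_eq]
      by_cases he : e.card = 3
      · obtain ⟨x, y, z, d1, d2, d3, rfl⟩ := card_eq_three.1 he
        rw [DL.mem_locT' d1 d2 d3, TC.mem_monoTriples hs d1 d2 d3]
        unfold DL.LM TC.Mono
        simp only [Fin.val_inj]
        constructor
        · rintro ⟨h1, h2, -⟩
          exact ⟨h1, by rw [hs x y, h2]⟩
        · rintro ⟨h1, h2⟩
          exact ⟨h1, by rw [hs y x, h2], by rw [hs z x, hs z y, ← h1, h2]⟩
      · have h1 : e ∉ DL.locT (fun x y => ((c x y : Fin 3) : ℕ)) := fun h =>
          he (DL.locT_three e h)
        have h2 : e ∉ TC.monoTriples c := fun h => he ((TC.mem_monoT).1 h).1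
        tauto
    refine ⟨fun x y => ((c x y : Fin 3) : ℕ), ?_, ?_⟩
    · rw [heq]
      exact hc
    · rw [heq]
      exact hm
  · rintro m ⟨c, hc, rfl⟩
    rcases partD n ℕ c hc with ⟨g, -, hg⟩ | h
    · refine le_trans ?_ (card_le_card hg)
      rw [turanCovering_eq]
      exact TC.fn_le_cov g
    · exact (DL.fn_le_H n).trans h

end Pool.Agent.Results.MP_466853_co.LocalColourings
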