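import Pool.Agent.DL.Rob4

/-!
# Turán's bound and stability for coverings whose link graphs have balanced sparse cuts

Let `T` be a 3-graph on `n` vertices in which every four vertices span a triple, and suppose that
almost all link graphs of `T` have a cut with few edges and with a positive proportion of the
vertices on both sides. Then `T` has density at least `1/2 - η`, or `T` is close to Turán's
construction. In particular Turán's bound `4/9` holds, so that in a counterexample to Turán's
conjecture a positive proportion of the vertices have link graphs without such cuts, for all choices
of the constants. Turán's construction satisfies the assumption: the link graph of a vertex of `V_i`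
has no edges between `V_{i-1}` and the other vertices.

Proof: in random samples of constant size all link graphs are disconnected, with high probability.
The structure theorem for coverings with disconnected link graphs
(`Pool.Agent.Results.MP_466853_co.DisconnectedLinks`) says that the triples in the sample form
Turán's construction or have density at least 1/2. If the first case occurs with positive
probability, then there is a sample such that almost all of its extensions by three vertices form
Turán's construction, and this gives the classes of the vertices.
-/

set_option autoImplicit false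
open Finset

namespace Pool.Agent.Results.MP_466853_co.SparseLinkCuts

variable {n : ℕ}

/-- Every four vertices contain a triple of `T`. -/
def Covers (T : Finset (Finset (Fin n))) : Prop :=
  ∀ S : Finset (Fin n), S.card = 4 → ∃ e ∈ T, e ⊆ S

/-- `T` is a set of triples such that every four vertices contain a triple of `T`. -/
def IsCovering (T : Finset (Finset (Fin n))) : Prop := (∀ e ∈ T, e.card = 3) ∧ Covers T

/-- Turán's construction for the classes of `g`: the triples inside a class, and the triples with two
vertices in a class and one vertex in the (cyclically) next class. -/
def turanCovering (g : Fin n → Fin 3) : Finset (Finset (Fin n)) :=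
  univ.filter fun e => e.card = 3 ∧ ((∃ k, ∀ x ∈ e, g x = k) ∨
    ∃ k, (e.filter fun x => g x = k).card = 2 ∧ (e.filter fun x => g x = k + 1).card = 1)

/-- The link graph of `x` has a cut with at least `δ n` vertices on both sides (where `x` itself is
counted on one of the sides) and at most `ε n²` edges. -/
def SparseCut (T : Finset (Finset (Fin n))) (δ ε : ℝ) (x : Fin n) : Prop :=
  ∃ A : Finset (Fin n), δ * n ≤ A.card ∧ (A.card : ℝ) ≤ (1 - δ) * n ∧
    ({p : Fin n × Fin n | p.1 ∈ A ∧ p.2 ∉ A ∧ ({x, p.1, p.2} : Finset (Fin n)) ∈ T}.ncard : ℝ) ≤
      ε * (n : ℝ) ^ 2

open Pool.Agent.R810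

theorem turanCovering_eq (g : Fin n → Fin 3) : turanCovering g = TC.turanCovering g := by
  unfold turanCovering TC.turanCovering
  congr!

/-- **Turán's bound and stability for coverings whose link graphs have balanced sparse cuts.** For
all `δ, η > 0` there are `ε > 0` and `n0` such that for `n ≥ n0` the following holds. Let `T` be a
set of triples of `n` vertices such that every four vertices contain a triple of `T`, and such that
at most `ε n` link graphs have no cut with at least `δ n` vertices on both sides and at most `ε n²`
edges. Then `T` has at least `(4/9 - η) C(n,3)` triples, and it has at least `(1/2 - η) C(n,3)`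
triples or differs from Turán's construction for some classes in at most `η n³` triples. -/
theorem result :
    ∀ δ η : ℝ, 0 < δ → 0 < η → ∃ ε : ℝ, 0 < ε ∧ ∃ n0 : ℕ, ∀ n, n0 ≤ n →
      ∀ T : Finset (Finset (Fin n)), IsCovering T →
        ({x : Fin n | ¬ SparseCut T δ ε x}.ncard : ℝ) ≤ ε * n →
        (4 / 9 - η) * (n.choose 3 : ℝ) ≤ (T.card : ℝ) ∧
        ((1 / 2 - η) * (n.choose 3 : ℝ) ≤ (T.card : ℝ) ∨
          ∃ g : Fin n → Fin 3,
            ((symmDiff T (turanCovering g)).card : ℝ) ≤ η * (n : ℝ) ^ 3) := by
  intro δ η hδ hη
  obtain ⟨ε, hε, n0, h⟩ := DL.final hδ hη
  refine ⟨ε, hε, n0, fun n hn T hT hB => ?_⟩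
  obtain ⟨h1, h2⟩ := h n hn T hT.1 hT.2 hB
  refine ⟨h1, ?_⟩
  rcases h2 with h2 | ⟨g, h2⟩
  · exact Or.inl h2
  · refine Or.inr ⟨g, ?_⟩
    rw [turanCovering_eq]
    convert h2


end Pool.Agent.Results.MP_466853_co.SparseLinkCuts
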