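import Pool.Agent.Helper370G.Orbit2
import Pool.Agent.Helper370G.Turan2

/-!
# Turán's `(3,4)`-problem for 3-graphs with a matching of edges of large codegree sum

Let `H` be a `K_4^3`-free 3-graph on `n` vertices. The sum of the codegrees of the three pairs of
vertices of an edge is at most `2n - 3`; an edge with this codegree sum is called tight. In Turán's
construction all the edges with a vertex in each class are tight. If `H` has `⌊n/3⌋` pairwise disjoint
tight edges, then it has at most as many edges as Turán's construction, for every `n`. For arbitrary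
disjoint edges there is a correction term, and there is an asymptotic form for fractional matchings;
it yields an explicit bound for vertex-transitive 3-graphs in terms of the codegree sum of any edge.

Outline: let `T` be the set of the triples which are not edges of `H`. Every nine vertices contain
at least 30 members of `T`, every seven at least 12, every five at least 3. The vertices are divided
into the members of the matching and at most two further points, and these inequalities are added
for all unions of three blocks. A member of `T` with its points in three blocks is counted once, one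
with two points in a member `Q` of the matching many times; but the number of the latter is given by
the codegree sum of `Q`.
-/

set_option autoImplicit false

open Finset

namespace Pool.Agent.Results.MP_466853_co.TightMatchings

/-- No four vertices have all their four triples in `H`. -/
def K43Free {V : Type} (H : Finset (Finset V)) : Prop :=
  ∀ S : Finset V, S.card = 4 → ∃ e ⊆ S, e.card = 3 ∧ e ∉ H

/-- The sum of the codegrees of the pairs contained in `Q`: the codegree of the pair `Q \ {v}` is
the number of the edges of `H` which contain it. -/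
def codegreeSum {V : Type} [DecidableEq V] (H : Finset (Finset V)) (Q : Finset V) : ℕ :=
  ∑ v ∈ Q, (H.filter (Q.erase v ⊆ ·)).card

/-- `M` consists of pairwise disjoint edges of `H`. -/
def IsMatching {V : Type} (H M : Finset (Finset V)) : Prop :=
  M ⊆ H ∧ ∀ Q ∈ M, ∀ Q' ∈ M, Q ≠ Q' → Disjoint Q Q'

/-- The number of edges of Turán's construction with classes of `⌊n/3⌋`, `⌊(n+1)/3⌋`, `⌊(n+2)/3⌋`
vertices (triples meeting all classes, and triples with two vertices in a class and one in the
next class). -/
def turanNumber (n : ℕ) : ℕ :=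
  n / 3 * ((n + 1) / 3) * ((n + 2) / 3) + (n / 3).choose 2 * ((n + 1) / 3) +
    ((n + 1) / 3).choose 2 * ((n + 2) / 3) + ((n + 2) / 3).choose 2 * (n / 3)

theorem result :
    -- (1) all edges have codegree sum at most `2n - 3`; if `M` is a matching with `⌊n/3⌋` edges,
    -- the number of edges exceeds Turán's number by at most a multiple of the defect of `M`
    (∀ (V : Type) [Fintype V] [DecidableEq V] (H : Finset (Finset V)), (∀ e ∈ H, e.card = 3) →
      K43Free H → (∀ Q ∈ H, codegreeSum H Q ≤ 2 * Fintype.card V - 3) ∧
        ∀ M : Finset (Finset V), IsMatching H M → M.card = Fintype.card V / 3 →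
          H.card ≤ turanNumber (Fintype.card V) +
            (Fintype.card V - 2 * (Fintype.card V / 3) - 3) *
              ∑ Q ∈ M, (2 * Fintype.card V - 3 - codegreeSum H Q)) ∧
    -- (2) the exact maximum for 3-graphs with `⌊n/3⌋` disjoint tight edges
    (∀ n : ℕ, IsGreatest {s : ℕ | ∃ H : Finset (Finset (Fin n)), (∀ e ∈ H, e.card = 3) ∧
      K43Free H ∧ (∃ M : Finset (Finset (Fin n)), IsMatching H M ∧ M.card = n / 3 ∧
        ∀ Q ∈ M, codegreeSum H Q = 2 * n - 3) ∧ H.card = s} (turanNumber n)) ∧
    -- (3) the asymptotic form, for fractional matchings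
    (∀ ε : ℝ, 0 < ε → ∃ δ : ℝ, 0 < δ ∧ ∃ n₀ : ℕ,
      ∀ (V : Type) [Fintype V] [DecidableEq V] (H : Finset (Finset V)), (∀ e ∈ H, e.card = 3) →
        K43Free H → n₀ ≤ Fintype.card V → ∀ w : Finset V → ℝ, (∀ Q ∈ H, 0 ≤ w Q) →
          (∀ x : V, ∑ Q ∈ H.filter (x ∈ ·), w Q ≤ 1) →
            (1 / 3 - δ) * Fintype.card V ≤ ∑ Q ∈ H, w Q →
              (2 - δ) * Fintype.card V * ∑ Q ∈ H, w Q ≤ ∑ Q ∈ H, w Q * (codegreeSum H Q : ℝ) →
                (H.card : ℝ) ≤ (5 / 9 + ε) * ((Fintype.card V).choose 3 : ℝ)) ∧
    -- (4) vertex-transitive 3-graphs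
    (∀ (V : Type) [Fintype V] [DecidableEq V] (H : Finset (Finset V)), (∀ e ∈ H, e.card = 3) →
      K43Free H →
        (∀ x y : V, ∃ σ : Equiv.Perm V, (∀ A ∈ H, A.map σ.toEmbedding ∈ H) ∧ σ x = y) →
          ∀ Q ∈ H, (H.card : ℝ) ≤ 5 / 9 * ((Fintype.card V).choose 3 : ℝ) +
            (2 * Fintype.card V - codegreeSum H Q) * (Fintype.card V : ℝ) ^ 2 / 9 +
              5 * (Fintype.card V : ℝ) ^ 2) := by
  refine ⟨?_, ?_, ?_, ?_⟩
  · intro V _ _ H hH hK
    refine ⟨fun Q hQ => Pool.Agent.Helper370G.codSum_le hH hK hQ, ?_⟩
    intro M hM hm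
    exact Pool.Agent.Helper370G.exact_bound hH hK M hM.1 hM.2 hm
  · intro n
    constructor
    · obtain ⟨H, hH, hK, ⟨M, hMH, hm, hdis, ht⟩, hc⟩ := Pool.Agent.Helper370G.exists_turan n
      refine ⟨H, hH, hK, ⟨M, ⟨hMH, hdis⟩, hm, ?_⟩, hc⟩
      intro Q hQ
      have h1 := Pool.Agent.Helper370G.codSum_le hH hK (hMH hQ)
      rw [Fintype.card_fin] at h1
      exact le_antisymm h1 (ht Q hQ)
    · rintro s ⟨H, hH, hK, ⟨M, ⟨hMH, hdis⟩, hm, ht⟩, rfl⟩
      have h1 := Pool.Agent.Helper370G.exact_bound hH hK M hMH hdis (by rw [Fintype.card_fin, hm])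
      rw [Fintype.card_fin] at h1
      have h2 : ∑ Q ∈ M, (2 * n - 3 - Pool.Agent.Helper370G.codSum H Q) = 0 := by
        refine sum_eq_zero fun Q hQ => ?_
        have h3 : Pool.Agent.Helper370G.codSum H Q = 2 * n - 3 := ht Q hQ
        rw [h3, Nat.sub_self]
      rw [h2, mul_zero, add_zero] at h1
      exact h1
  · exact Pool.Agent.Helper370G.asym
  · intro V _ _ H hH hK htr Q hQ
    exact Pool.Agent.Helper370G.transitive_explicit hH hK htr hQ

end Pool.Agent.Results.MP_466853_co.TightMatchings
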